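import Pool.Agent.Lib.MP_b879c5_an.WH.Spec

/-!
# Blow-up of highly oscillating solutions (MP_b879c5_an): growth (module HEX)
-/

set_option autoImplicit false

namespace Pool.Agent.Lib.MPb879c5.WH

open Set Filter MeasureTheory Topology

namespace HEXM

/-- the derivative of `(T - t)³ G` -/
lemma deriv_phi {G g : ℝ → ℝ} {T t : ℝ} (h : HasDerivAt G (g t) t) :
    HasDerivAt (fun s => (T - s) ^ 3 * G s) ((T - t) ^ 2 * ((T - t) * g t - 3 * G t)) t := by
  have h1 : HasDerivAt (fun s : ℝ => T - s) (-1) t := by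
    have h0 := (hasDerivAt_id t).const_sub T
    exact h0
  have h2 := (h1.fun_pow 3).mul h
  refine h2.congr_deriv ?_
  push_cast
  ring

end HEXM

open HEXM in
theorem specHEX : SpecHEX := by
  intro G g t₀ T K hT hG hpos h3
  have hmono : ∀ t ∈ Ico t₀ T, (T - t₀) ^ 3 * G t₀ ≤ (T - t) ^ 3 * G t := by
    intro t ht
    have hsub : ∀ s ∈ Icc t₀ t, s ∈ Ico t₀ T := fun s hs => ⟨hs.1, lt_of_le_of_lt hs.2 ht.2⟩
    have hm : MonotoneOn (fun s => (T - s) ^ 3 * G s) (Icc t₀ t) := by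
      apply monotoneOn_of_deriv_nonneg (convex_Icc t₀ t)
      · intro s hs
        exact (deriv_phi (hG s (hsub s hs))).continuousAt.continuousWithinAt
      · intro s hs
        exact (deriv_phi (hG s (hsub s (interior_subset hs)))).differentiableAt.differentiableWithinAt
      · intro s hs
        have hs' := hsub s (interior_subset hs)
        rw [(deriv_phi (hG s hs')).deriv]
        have h1 := h3 s hs'
        exact mul_nonneg (sq_nonneg _) (by linarith)
    exact hm (left_mem_Icc.mpr ht.1) (right_mem_Icc.mpr ht.1) ht.1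
  have h0 : 0 < T - t₀ := by linarith
  have hc : 0 < (T - t₀) ^ 3 * G t₀ := mul_pos (pow_pos h0 3) (hpos t₀ ⟨le_rfl, hT⟩)
  set c := (T - t₀) ^ 3 * G t₀ with hcdef
  have hK : 0 < |K| + 1 := by positivity
  set δ := min (T - t₀) (c / (|K| + 1)) with hδ
  have hδ0 : 0 < δ := lt_min h0 (div_pos hc hK)
  have hδ1 : δ ≤ T - t₀ := min_le_left _ _
  have hδ2 : δ ≤ c / (|K| + 1) := min_le_right _ _
  have ht : T - δ ∈ Ico t₀ T := ⟨by linarith, by linarith⟩
  refine ⟨T - δ, ht, ?_⟩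
  have h1 := hmono (T - δ) ht
  have h2 : T - (T - δ) = δ := by ring
  rw [h2] at h1 ⊢
  have h4 : δ * (|K| + 1) ≤ c := by
    rw [le_div_iff₀ hK] at hδ2
    exact hδ2
  have h5 : δ * (|K| + 1) ≤ δ * (δ ^ 2 * G (T - δ)) := by
    calc δ * (|K| + 1) ≤ c := h4
      _ ≤ δ ^ 3 * G (T - δ) := h1
      _ = δ * (δ ^ 2 * G (T - δ)) := by ring
  have h6 : |K| + 1 ≤ δ ^ 2 * G (T - δ) := le_of_mul_le_mul_left h5 hδ0
  have h7 := le_abs_self K
  linarith

end Pool.Agent.Lib.MPb879c5.WH
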