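import Pool.Agent.Lib.MP_b879c5_an.WH.Spec

set_option autoImplicit false

namespace Pool.Agent.Lib.MPb879c5.WH

open Set Filter MeasureTheory Topology
open Pool.Agent.Lib.MP_b879c5_an
open Pool.Agent.Lib.MPb879c5.WP
open scoped ContDiff

noncomputable section

namespace HINM

lemma slice_SP {T : ℝ} {U : ℝ × ℝ → ℝ} (h : Sol T U) {t : ℝ} (ht : t ∈ Ioo 0 T) :
    SP (fun x => U (t, x)) := by
  refine ⟨?_, fun x => h.per t ht x⟩
  rw [← contDiffOn_univ]
  have h1 : ContDiffOn ℝ ∞ (fun x : ℝ => ((t, x) : ℝ × ℝ)) univ :=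
    (contDiff_const.prodMk contDiff_id).contDiffOn
  exact ContDiffOn.comp (t := Om T) h.sm h1 (fun x _ => mem_Om.mpr ht)

lemma deriv_slice {T : ℝ} {U : ℝ × ℝ → ℝ} (h : Sol T U) {t : ℝ} (ht : t ∈ Ioo 0 T) (x : ℝ) :
    deriv (fun y => U (t, y)) x = Dx U (t, x) :=
  (h.sm.hasDerivAt_x ht x).deriv

end HINM

open HINM in
theorem specHIN (hHPO : SpecHPO) : SpecHIN := by
  intro n T U hn hU hper t ht
  have hpi : 0 < 2 * Real.pi := by positivity
  have hnpos : (0 : ℝ) < n := by exact_mod_cast hn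
  have hq0 : 0 ≤ Real.pi / n := by positivity
  have hc0 := hU.sm.continuous_x ht
  have hc1 := hU.sm.dx.continuous_x ht
  have hosc : ∀ x, |U (t, x) - Am U t| ≤ Real.pi / n * Real.sqrt (Gm U t) := by
    intro x
    have h1 := hHPO n (fun y => U (t, y)) hn (slice_SP hU ht) (hper t ht) x
    have h2 : (∫ y in (0)..(2 * Real.pi), deriv (fun z => U (t, z)) y ^ 2) = II U t := by
      unfold II
      congr 1
      funext y
      rw [deriv_slice hU ht]
    rw [h2] at h1
    exact h1
  set A := Am U t with hA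
  set G := Gm U t with hG
  have hII0 : 0 ≤ II U t := by
    unfold II
    exact intervalIntegral.integral_nonneg hpi.le (fun x _ => sq_nonneg _)
  have hG0 : 0 ≤ G := by
    rw [hG]; unfold Gm; positivity
  have hGI : II U t = 2 * Real.pi * G := by
    rw [hG]; unfold Gm; field_simp
  have hAm : mI U t = 2 * Real.pi * A := by
    rw [hA]; unfold Am; field_simp
  have hsq : Real.sqrt G ^ 2 = G := Real.sq_sqrt hG0
  have hs0 : 0 ≤ Real.sqrt G := Real.sqrt_nonneg G
  refine ⟨hosc, (1 / (2 * Real.pi)) * ∫ x in (0)..(2 * Real.pi), (U (t, x) - A) ^ 2,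
    (4 / (2 * Real.pi)) * ∫ x in (0)..(2 * Real.pi), (U (t, x) - A) * (Dx U (t, x)) ^ 2, ?_, ?_, ?_, ?_, ?_⟩
  · exact mul_nonneg (by positivity) (intervalIntegral.integral_nonneg hpi.le (fun x _ => sq_nonneg _))
  · have h1 : ∫ x in (0)..(2 * Real.pi), (U (t, x) - A) ^ 2 ≤ ∫ x in (0)..(2 * Real.pi), (Real.pi / n) ^ 2 * G := by
      refine intervalIntegral.integral_mono_on hpi.le (((hc0.sub continuous_const).pow 2).intervalIntegrable _ _)
        intervalIntegrable_const ?_
      intro x _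
      have h2 := hosc x
      have h3 : (U (t, x) - A) ^ 2 = |U (t, x) - A| ^ 2 := (sq_abs _).symm
      rw [h3]
      calc |U (t, x) - A| ^ 2 ≤ (Real.pi / n * Real.sqrt G) ^ 2 := pow_le_pow_left₀ (abs_nonneg _) h2 2
        _ = (Real.pi / n) ^ 2 * G := by rw [mul_pow, hsq]
    rw [intervalIntegral.integral_const, smul_eq_mul, sub_zero] at h1
    calc (1 / (2 * Real.pi)) * ∫ x in (0)..(2 * Real.pi), (U (t, x) - A) ^ 2
        ≤ (1 / (2 * Real.pi)) * (2 * Real.pi * ((Real.pi / n) ^ 2 * G)) :=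
          mul_le_mul_of_nonneg_left h1 (by positivity)
      _ = (Real.pi / n) ^ 2 * G := by field_simp
  · have h1 : |∫ x in (0)..(2 * Real.pi), (U (t, x) - A) * (Dx U (t, x)) ^ 2|
        ≤ ∫ x in (0)..(2 * Real.pi), Real.pi / n * Real.sqrt G * (Dx U (t, x)) ^ 2 := by
      refine (intervalIntegral.abs_integral_le_integral_abs hpi.le).trans ?_
      refine intervalIntegral.integral_mono_on hpi.le
        (((hc0.sub continuous_const).mul (hc1.pow 2)).abs.intervalIntegrable _ _)
        ((continuous_const.mul (hc1.pow 2)).intervalIntegrable _ _) ?_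
      intro x _
      rw [abs_mul, abs_of_nonneg (sq_nonneg (Dx U (t, x)))]
      exact mul_le_mul_of_nonneg_right (hosc x) (sq_nonneg _)
    rw [intervalIntegral.integral_const_mul] at h1
    have h2 : (∫ x in (0)..(2 * Real.pi), (Dx U (t, x)) ^ 2) = 2 * Real.pi * G := hGI
    rw [h2] at h1
    rw [abs_mul, abs_of_nonneg (by positivity : (0 : ℝ) ≤ 4 / (2 * Real.pi))]
    calc 4 / (2 * Real.pi) * |∫ x in (0)..(2 * Real.pi), (U (t, x) - A) * (Dx U (t, x)) ^ 2|
        ≤ 4 / (2 * Real.pi) * (Real.pi / n * Real.sqrt G * (2 * Real.pi * G)) :=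
          mul_le_mul_of_nonneg_left h1 (by positivity)
      _ = 4 * (Real.pi / n) * G * Real.sqrt G := by field_simp
  · have h1 := (hU.hasDerivAt_m ht).div_const (2 * Real.pi)
    have h2 : (II U t + JI U t) / (2 * Real.pi)
        = G + A ^ 2 + (1 / (2 * Real.pi)) * ∫ x in (0)..(2 * Real.pi), (U (t, x) - A) ^ 2 := by
      have h3 : ∀ x, (U (t, x) - A) ^ 2 = (U (t, x)) ^ 2 - (2 * A) * U (t, x) + A ^ 2 := by
        intro x; ring
      simp_rw [h3]
      have i1 : IntervalIntegrable (fun x => (U (t, x)) ^ 2) volume 0 (2 * Real.pi) :=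
        (hc0.pow 2).intervalIntegrable _ _
      have i2 : IntervalIntegrable (fun x => (2 * A) * U (t, x)) volume 0 (2 * Real.pi) :=
        (continuous_const.mul hc0).intervalIntegrable _ _
      rw [intervalIntegral.integral_add (i1.sub i2) intervalIntegrable_const,
        intervalIntegral.integral_sub i1 i2,
        intervalIntegral.integral_const_mul, intervalIntegral.integral_const, smul_eq_mul, sub_zero]
      have h4 : (∫ x in (0)..(2 * Real.pi), U (t, x)) = 2 * Real.pi * A := hAm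
      have h5 : (∫ x in (0)..(2 * Real.pi), (U (t, x)) ^ 2) = JI U t := rfl
      rw [h4, h5, hGI]
      field_simp
      ring
    rw [← h2]
    exact h1
  · have h1 := (hU.hasDerivAt_I ht).div_const (2 * Real.pi)
    have h2 : (4 * ∫ x in (0)..(2 * Real.pi), U (t, x) * (Dx U (t, x)) ^ 2) / (2 * Real.pi)
        = 4 * A * G + (4 / (2 * Real.pi)) * ∫ x in (0)..(2 * Real.pi), (U (t, x) - A) * (Dx U (t, x)) ^ 2 := by
      have h3 : ∀ x, (U (t, x) - A) * (Dx U (t, x)) ^ 2
          = U (t, x) * (Dx U (t, x)) ^ 2 - A * (Dx U (t, x)) ^ 2 := by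
        intro x; ring
      simp_rw [h3]
      have i1 : IntervalIntegrable (fun x => U (t, x) * (Dx U (t, x)) ^ 2) volume 0 (2 * Real.pi) :=
        (hc0.mul (hc1.pow 2)).intervalIntegrable _ _
      have i2 : IntervalIntegrable (fun x => A * (Dx U (t, x)) ^ 2) volume 0 (2 * Real.pi) :=
        (continuous_const.mul (hc1.pow 2)).intervalIntegrable _ _
      rw [intervalIntegral.integral_sub i1 i2, intervalIntegral.integral_const_mul]
      have h4 : (∫ x in (0)..(2 * Real.pi), (Dx U (t, x)) ^ 2) = 2 * Real.pi * G := hGI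
      rw [h4]
      field_simp
      ring
    rw [← h2]
    exact h1

end

end Pool.Agent.Lib.MPb879c5.WH
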