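import Pool.Agent.Lib.MP_b879c5_an.WH.Spec

set_option autoImplicit false

namespace Pool.Agent.Lib.MPb879c5.WH

open Set Filter MeasureTheory Topology
open Pool.Agent.Lib.MP_b879c5_an
open Pool.Agent.Lib.MPb879c5.WP
open scoped ContDiff

namespace HPOM

theorem int_per (n : ℕ) (hn : 1 ≤ n) (g : ℝ → ℝ) (hg : Continuous g)
    (hp : ∀ x, g (x + 2 * Real.pi / n) = g x) (x : ℝ) :
    ∫ y in (0 : ℝ)..(2 * Real.pi), g y = n * ∫ y in x..(x + 2 * Real.pi / n), g y := by
  have hP : Function.Periodic g (2 * Real.pi / n) := hp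
  have h1 := hP.intervalIntegral_add_zsmul_eq (n : ℤ) 0 (fun a b => hg.intervalIntegrable a b)
  have hn0 : (n : ℝ) ≠ 0 := by
    have : (1 : ℝ) ≤ n := by exact_mod_cast hn
    linarith
  have e : (0 : ℝ) + ((n : ℤ)) • (2 * Real.pi / n) = 2 * Real.pi := by
    rw [zero_add, zsmul_eq_mul]; push_cast; field_simp
  rw [e, hP.intervalIntegral_add_eq 0 x, zsmul_eq_mul] at h1
  rw [h1]; push_cast; rfl

theorem cs (g : ℝ → ℝ) (hg : Continuous g) (a b : ℝ) (hab : a < b) :
    (∫ y in a..b, |g y|) ^ 2 ≤ (b - a) * ∫ y in a..b, g y ^ 2 := by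
  obtain ⟨P, hP⟩ : ∃ P, P = ∫ y in a..b, |g y| := ⟨_, rfl⟩
  obtain ⟨Q, hQ⟩ : ∃ Q, Q = ∫ y in a..b, g y ^ 2 := ⟨_, rfl⟩
  have hl : 0 < b - a := sub_pos.2 hab
  obtain ⟨c, hc⟩ : ∃ c, c = P / (b - a) := ⟨_, rfl⟩
  have h0 : 0 ≤ ∫ y in a..b, (|g y| - c) ^ 2 :=
    intervalIntegral.integral_nonneg hab.le fun y _ => sq_nonneg _
  have h1 : ∫ y in a..b, (|g y| - c) ^ 2 = Q - 2 * c * P + c ^ 2 * (b - a) := by
    have e1 : ∀ y, (|g y| - c) ^ 2 = g y ^ 2 - 2 * c * |g y| + c ^ 2 := by
      intro y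
      rw [sub_sq, sq_abs]; ring
    simp_rw [e1]
    rw [intervalIntegral.integral_add, intervalIntegral.integral_sub,
      intervalIntegral.integral_const_mul, intervalIntegral.integral_const, ← hP, ← hQ,
      smul_eq_mul]
    · ring
    · exact Continuous.intervalIntegrable (by fun_prop) _ _
    · exact Continuous.intervalIntegrable (by fun_prop) _ _
    · exact Continuous.intervalIntegrable (by fun_prop) _ _
    · exact Continuous.intervalIntegrable (by fun_prop) _ _
  rw [h1] at h0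
  rw [← hP, ← hQ]
  have hPc : P = c * (b - a) := by rw [hc]; field_simp
  rw [hPc] at h0 ⊢
  nlinarith

end HPOM

open HPOM in
theorem specHPO : SpecHPO := by
  intro n f hn hf hper x
  have hn0 : (0 : ℝ) < n := by
    have : (1 : ℝ) ≤ n := by exact_mod_cast hn
    linarith
  have hpi := Real.pi_pos
  have hl : 0 < 2 * Real.pi / n := by positivity
  have hfc : Continuous f := hf.sm.continuous
  have hfd : Differentiable ℝ f := hf.sm.differentiable (by simp)
  have hdc : Continuous (deriv f) := hf.sm.continuous_deriv (by simp)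
  have hdp : ∀ y, deriv f (y + 2 * Real.pi / n) = deriv f y := by
    intro y
    rw [← deriv_comp_add_const f (2 * Real.pi / n) y]
    congr 1
    exact funext hper
  have h1 := int_per n hn f hfc hper x
  have h2 := int_per n hn (fun y => deriv f y ^ 2) (hdc.pow 2) (fun y => by
    show deriv f (y + 2 * Real.pi / n) ^ 2 = deriv f y ^ 2
    rw [hdp y]) x
  obtain ⟨y, hy, hyA⟩ := exists_eq_interval_average (f := f) (a := x) (b := x + 2 * Real.pi / n)
    (by linarith) hfc.continuousOn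
  rw [interval_average_eq_div, add_sub_cancel_left] at hyA
  rw [uIoo_of_le (by linarith)] at hy
  have hA : (∫ y in (0 : ℝ)..(2 * Real.pi), f y) / (2 * Real.pi) = f y := by
    rw [h1, hyA]; field_simp
  have ftc : ∀ a b : ℝ, ∫ z in a..b, deriv f z = f b - f a := fun a b =>
    intervalIntegral.integral_eq_sub_of_hasDerivAt (fun z _ => (hfd z).hasDerivAt)
      (hdc.intervalIntegrable _ _)
  have hab : ∀ a b : ℝ, a ≤ b → |f b - f a| ≤ ∫ z in a..b, |deriv f z| := by
    intro a b hab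
    rw [← ftc a b]
    exact intervalIntegral.abs_integral_le_integral_abs hab
  have h3 := hab x y hy.1.le
  have h4 := hab y (x + 2 * Real.pi / n) hy.2.le
  rw [hper x] at h4
  have h5 : (∫ z in x..y, |deriv f z|) + ∫ z in y..(x + 2 * Real.pi / n), |deriv f z|
      = ∫ z in x..(x + 2 * Real.pi / n), |deriv f z| :=
    intervalIntegral.integral_add_adjacent_intervals (hdc.abs.intervalIntegrable _ _)
      (hdc.abs.intervalIntegrable _ _)
  have h6 := cs (deriv f) hdc x (x + 2 * Real.pi / n) (by linarith)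
  rw [add_sub_cancel_left] at h6
  rw [hA]
  have h7 : 2 * |f x - f y| ≤ ∫ z in x..(x + 2 * Real.pi / n), |deriv f z| := by
    rw [abs_sub_comm (f y) (f x)] at h3
    linarith
  have h8 : (f x - f y) ^ 2 ≤ (Real.pi / n) ^ 2 *
      ((∫ y in (0 : ℝ)..(2 * Real.pi), deriv f y ^ 2) / (2 * Real.pi)) := by
    have h9 : (2 * |f x - f y|) ^ 2 ≤ (∫ z in x..(x + 2 * Real.pi / n), |deriv f z|) ^ 2 :=
      pow_le_pow_left₀ (by positivity) h7 2
    rw [mul_pow, sq_abs] at h9
    rw [h2]
    have h10 : (Real.pi / n) ^ 2 *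
        ((n * ∫ z in x..(x + 2 * Real.pi / n), deriv f z ^ 2) / (2 * Real.pi))
        = (2 * Real.pi / n * ∫ z in x..(x + 2 * Real.pi / n), deriv f z ^ 2) / 4 := by
      field_simp
      ring
    rw [h10]
    linarith
  have h11 : Real.pi / n * Real.sqrt ((∫ y in (0 : ℝ)..(2 * Real.pi), deriv f y ^ 2) / (2 * Real.pi))
      = Real.sqrt ((Real.pi / n) ^ 2 *
      ((∫ y in (0 : ℝ)..(2 * Real.pi), deriv f y ^ 2) / (2 * Real.pi))) := by
    rw [Real.sqrt_mul (sq_nonneg _), Real.sqrt_sq (by positivity)]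
  rw [h11]
  exact Real.abs_le_sqrt h8

end Pool.Agent.Lib.MPb879c5.WH
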