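import Pool.Agent.Lib.MP_b879c5_an.WH.Spec

/-!
# MP_b879c5_an: module HPS (the mean of `u_x²` is positive for nonconstant solutions)
-/

set_option autoImplicit false

namespace Pool.Agent.Lib.MPb879c5.WH

open Set Filter MeasureTheory Topology
open Pool.Agent.Lib.MP_b879c5_an
open Pool.Agent.Lib.MPb879c5.WP
open scoped ContDiff

namespace HPSM

/-- If `∫ u_x² ≤ 0` at one time then `u` is constant in space at this time. -/
lemma const_of_nonpos {T : ℝ} {U : ℝ × ℝ → ℝ} (hU : Sol T U) {t : ℝ} (ht : t ∈ Ioo 0 T) (hI : II U t ≤ 0) :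
    ∀ x, U (t, x) = U (t, 0) := by
  intro x
  have hper : Function.Periodic (fun y => U (t, y)) (2 * Real.pi) := fun y => hU.per t ht y
  have hpi : (0 : ℝ) < 2 * Real.pi := by positivity
  obtain ⟨y, hy, hxy⟩ := hper.exists_mem_Ico₀ hpi x
  have hxy' : U (t, x) = U (t, y) := hxy
  have h1 := hU.osc ht (x := y) (y := 0) ⟨hy.1, hy.2.le⟩ ⟨le_refl 0, hpi.le⟩
  have h2 : Real.sqrt (2 * Real.pi * II U t) = 0 := by
    apply Real.sqrt_eq_zero_of_nonpos
    exact mul_nonpos_of_nonneg_of_nonpos hpi.le hI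
  rw [h2] at h1
  have h3 : U (t, y) - U (t, 0) = 0 := abs_eq_zero.mp (le_antisymm h1 (abs_nonneg _))
  rw [hxy']
  linarith

end HPSM

theorem specHPS (hPRD : WP.SpecPRD) : SpecHPS := by
  intro T U hU hne t ht
  by_contra hcon
  have hI : II U t ≤ 0 := not_lt.mp hcon
  have hc := HPSM.const_of_nonpos hU ht hI
  obtain ⟨s, hs, x, y, hxy⟩ := hne
  apply hxy
  have h1 := hPRD T U t (x - y) hU ht (fun z => by rw [hc (z + (x - y)), hc z]) s hs y
  have h2 : y + (x - y) = x := by ring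
  rw [h2] at h1
  exact h1

end Pool.Agent.Lib.MPb879c5.WH
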