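import Pool.Agent.Lib.MP_b879c5_an.WH.Spec

/-!
# MP_b879c5_an, hive WH: module HSS (the two Riccati equations at one time)
-/

set_option autoImplicit false

namespace Pool.Agent.Lib.MPb879c5.WH

open Set Filter MeasureTheory Topology
open Pool.Agent.Lib.MP_b879c5_an
open Pool.Agent.Lib.MPb879c5.WP
open scoped ContDiff

theorem specHSS : SpecHSS := by
  intro A G t V R q hG hq hV0 hV hR hA hG'
  set s : ℝ := Real.sqrt (G t) with hs
  have hspos : 0 < s := Real.sqrt_pos.2 hG
  have hs2 : G t = s * s := (Real.mul_self_sqrt hG.le).symm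
  have hsq : HasDerivAt (fun y => Real.sqrt (G y)) ((4 * A t * G t + R) / (2 * s)) t :=
    hG'.sqrt hG.ne'
  have he : (4 * A t * G t + R) / (2 * s) = 2 * A t * s + R / (2 * s) := by
    rw [hs2]
    field_simp
    ring
  have hr : |R / (2 * s)| ≤ 2 * q * G t := by
    rw [abs_div, abs_of_pos (by positivity : (0 : ℝ) < 2 * s), div_le_iff₀ (by positivity)]
    calc |R| ≤ 4 * q * G t * s := hR
      _ = 2 * q * G t * (2 * s) := by ring
  rw [he] at hsq
  have hr' := abs_le.1 hr
  refine ⟨_, _, hA.add hsq, hA.sub hsq, ?_, ?_⟩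
  · have e1 : G t + A t ^ 2 + V + (2 * A t * s + R / (2 * s)) - (A t + s) ^ 2 =
        V + R / (2 * s) := by
      have : s ^ 2 = G t := by rw [hs2]; ring
      linear_combination (-1 : ℝ) * this
    rw [e1, abs_le]
    constructor
    · nlinarith [hr'.1, mul_nonneg (sq_nonneg q) hG.le]
    · nlinarith [hr'.2]
  · have e1 : G t + A t ^ 2 + V - (2 * A t * s + R / (2 * s)) - (A t - s) ^ 2 =
        V - R / (2 * s) := by
      have : s ^ 2 = G t := by rw [hs2]; ring
      linear_combination (-1 : ℝ) * this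
    rw [e1, abs_le]
    constructor
    · nlinarith [hr'.2, mul_nonneg (sq_nonneg q) hG.le]
    · nlinarith [hr'.1]

end Pool.Agent.Lib.MPb879c5.WH
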