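import Pool.Agent.Lib.MP_b879c5_an.WH.Spec

/-! Module HYM (helper60): the lower branch, in the original time. -/

set_option autoImplicit false

namespace Pool.Agent.Lib.MPb879c5.WH

open Set Filter Topology

namespace HYMM

theorem tendsto_neg_log (T : ℝ) : Tendsto (fun t : ℝ => -Real.log (T - t)) (𝓝[<] T) atTop := by
  have h1 : Tendsto (fun t : ℝ => T - t) (𝓝[<] T) (𝓝[>] 0) := by
    refine tendsto_nhdsWithin_iff.mpr ⟨?_, ?_⟩
    · have h2 : Tendsto (fun t : ℝ => T - t) (𝓝 T) (𝓝 (T - T)) := by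
        exact (continuous_const.sub continuous_id).tendsto T
      rw [sub_self] at h2
      exact h2.mono_left nhdsWithin_le_nhds
    · filter_upwards [self_mem_nhdsWithin] with t ht
      have h3 : t < T := ht
      show (0 : ℝ) < T - t
      exact sub_pos.mpr h3
  exact tendsto_neg_atBot_atTop.comp (Real.tendsto_log_nhdsGT_zero.comp h1)

theorem deriv_Z (y : ℝ → ℝ) (d T τ : ℝ) (h : HasDerivAt y d (T - Real.exp (-τ))) :
    HasDerivAt (fun s => Real.exp (-s) * y (T - Real.exp (-s)))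
      (Real.exp (-τ) ^ 2 * d - Real.exp (-τ) * y (T - Real.exp (-τ))) τ := by
  have h1 : HasDerivAt (fun s : ℝ => Real.exp (-s)) (-Real.exp (-τ)) τ := by
    have h2 := (Real.hasDerivAt_exp (-τ)).comp τ (hasDerivAt_neg τ)
    have e : Real.exp (-τ) * (-1) = -Real.exp (-τ) := by ring
    rw [e] at h2
    exact h2
  have h3 : HasDerivAt (fun s : ℝ => T - Real.exp (-s)) (Real.exp (-τ)) τ := by
    have h4 := h1.const_sub T
    rw [neg_neg] at h4
    exact h4
  have h5 : HasDerivAt (fun s : ℝ => y (T - Real.exp (-s))) (d * Real.exp (-τ)) τ :=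
    HasDerivAt.comp (h₂ := y) (h := fun s : ℝ => T - Real.exp (-s)) τ h h3
  have h6 := h1.mul h5
  have e : Real.exp (-τ) ^ 2 * d - Real.exp (-τ) * y (T - Real.exp (-τ)) =
      -Real.exp (-τ) * y (T - Real.exp (-τ)) + Real.exp (-τ) * (d * Real.exp (-τ)) := by ring
  rw [e]
  exact h6

end HYMM

theorem specHYM (hHYZ : SpecHYZ) : SpecHYM := by
  intro y d t₀ T ε K hT hε hε2 hy hd hK
  have hpos : 0 < T - t₀ := sub_pos.mpr hT
  -- the time `T - exp (-τ)` is in `[t₀, T)` for `τ ≥ τ₀`
  have hmem : ∀ τ, -Real.log (T - t₀) ≤ τ → T - Real.exp (-τ) ∈ Ico t₀ T := by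
    intro τ hτ
    have h1 : Real.exp (-τ) ≤ T - t₀ := by
      rw [← Real.exp_log hpos]
      exact Real.exp_le_exp.mpr (by linarith)
    have h2 := Real.exp_pos (-τ)
    exact ⟨by linarith, by linarith⟩
  have hback : ∀ t ∈ Ico t₀ T, Real.exp (- -Real.log (T - t)) = T - t ∧
      -Real.log (T - t₀) ≤ -Real.log (T - t) := by
    intro t ht
    have h1 : 0 < T - t := sub_pos.mpr ht.2
    refine ⟨by rw [neg_neg, Real.exp_log h1], neg_le_neg (Real.log_le_log h1 ?_)⟩
    linarith [ht.1]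
  have key := hHYZ (fun s => Real.exp (-s) * y (T - Real.exp (-s)))
    (fun s => Real.exp (-s) ^ 2 * d (T - Real.exp (-s)) - Real.exp (-s) * y (T - Real.exp (-s)))
    (-Real.log (T - t₀)) ε K hε hε2
    (fun τ hτ => HYMM.deriv_Z y (d (T - Real.exp (-τ))) T τ (hy _ (hmem τ hτ)))
    (fun τ hτ => by
      have h1 := hd _ (hmem τ hτ)
      have h2 : T - (T - Real.exp (-τ)) = Real.exp (-τ) := by ring
      rw [h2] at h1
      have h3 : Real.exp (-τ) ^ 2 * d (T - Real.exp (-τ)) - Real.exp (-τ) * y (T - Real.exp (-τ)) -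
          ((Real.exp (-τ) * y (T - Real.exp (-τ))) ^ 2 - Real.exp (-τ) * y (T - Real.exp (-τ))) =
          (d (T - Real.exp (-τ)) - y (T - Real.exp (-τ)) ^ 2) * Real.exp (-τ) ^ 2 := by ring
      show |Real.exp (-τ) ^ 2 * d (T - Real.exp (-τ)) - Real.exp (-τ) * y (T - Real.exp (-τ)) -
          ((Real.exp (-τ) * y (T - Real.exp (-τ))) ^ 2 - Real.exp (-τ) * y (T - Real.exp (-τ)))| ≤ ε
      rw [h3, abs_mul, abs_of_nonneg (sq_nonneg (Real.exp (-τ)))]
      exact h1)
    (fun τ hτ => by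
      have h1 := hK _ (hmem τ hτ)
      have h2 : T - (T - Real.exp (-τ)) = Real.exp (-τ) := by ring
      rw [h2] at h1
      exact h1)
  rcases key with h | h
  · left
    have h1 := (HYMM.tendsto_neg_log T).eventually h
    filter_upwards [h1, Ico_mem_nhdsLT hT] with t ht ht0
    have h2 := (hback t ht0).1
    have h3 : T - (T - t) = t := by ring
    simp only [h2, h3] at ht
    exact ht
  · right
    intro t ht
    have h1 := h _ (hback t ht).2
    have h2 := (hback t ht).1
    have h3 : T - (T - t) = t := by ring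
    simp only [h2, h3] at h1
    exact h1

end Pool.Agent.Lib.MPb879c5.WH
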