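import Pool.Agent.Lib.MP_b879c5_an.WH.Spec

/-!
# HYP: the upper branch
-/

set_option autoImplicit false

namespace Pool.Agent.Lib.MPb879c5.WH

open Set Filter MeasureTheory Topology

theorem specHYP : SpecHYP := by
  intro y d t₀ T κ hT hκ0 hκ1 hd hy hκ hM t ht
  have hz : ∀ s ∈ Ico t₀ T, HasDerivAt (fun s => (y s)⁻¹) (-d s / y s ^ 2) s := by
    intro s hs
    exact (hd s hs).inv (hy s hs).ne'
  have hlow : ∀ s ∈ Ico t₀ T, -(1 + κ) ≤ -d s / y s ^ 2 := by
    intro s hs
    have h1 := (abs_le.mp (hκ s hs)).2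
    have h2 : 0 < y s ^ 2 := by have := hy s hs; positivity
    rw [le_div_iff₀ h2]
    linarith
  have hup : ∀ s ∈ Ico t₀ T, -d s / y s ^ 2 ≤ -(1 - κ) := by
    intro s hs
    have h1 := (abs_le.mp (hκ s hs)).1
    have h2 : 0 < y s ^ 2 := by have := hy s hs; positivity
    rw [div_le_iff₀ h2]
    linarith
  have hder : ∀ a : ℝ, ∀ s ∈ Ico t₀ T,
      HasDerivAt (fun s => (y s)⁻¹ + a * s) (-d s / y s ^ 2 + a) s := by
    intro a s hs
    have h1 := (hz s hs).add ((hasDerivAt_id s).const_mul a)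
    rw [mul_one] at h1
    exact h1
  have hmono : MonotoneOn (fun s => (y s)⁻¹ + (1 + κ) * s) (Ico t₀ T) := by
    apply monotoneOn_of_deriv_nonneg (convex_Ico _ _)
    · exact fun s hs => (hder _ s hs).continuousAt.continuousWithinAt
    · intro s hs
      rw [interior_Ico] at hs
      exact (hder _ s (Ioo_subset_Ico_self hs)).differentiableAt.differentiableWithinAt
    · intro s hs
      rw [interior_Ico] at hs
      rw [(hder _ s (Ioo_subset_Ico_self hs)).deriv]
      linarith [hlow s (Ioo_subset_Ico_self hs)]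
  have hanti : AntitoneOn (fun s => (y s)⁻¹ + (1 - κ) * s) (Ico t₀ T) := by
    apply antitoneOn_of_deriv_nonpos (convex_Ico _ _)
    · exact fun s hs => (hder _ s hs).continuousAt.continuousWithinAt
    · intro s hs
      rw [interior_Ico] at hs
      exact (hder _ s (Ioo_subset_Ico_self hs)).differentiableAt.differentiableWithinAt
    · intro s hs
      rw [interior_Ico] at hs
      rw [(hder _ s (Ioo_subset_Ico_self hs)).deriv]
      linarith [hup s (Ioo_subset_Ico_self hs)]
  have hyt := hy t ht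
  have hzt : 0 < (y t)⁻¹ := inv_pos.mpr hyt
  have hzy : (y t)⁻¹ * y t = 1 := inv_mul_cancel₀ hyt.ne'
  -- the upper bound for `1 / y`
  have hA : (y t)⁻¹ ≤ (1 + κ) * (T - t) := by
    by_contra hcon
    push Not at hcon
    obtain ⟨δ, hδ⟩ : ∃ δ : ℝ, δ = (y t)⁻¹ - (1 + κ) * (T - t) := ⟨_, rfl⟩
    have hδ0 : 0 < δ := by rw [hδ]; linarith
    obtain ⟨t', ht', hbig⟩ := hM δ⁻¹ t ht.2
    have ht'm : t' ∈ Ico t₀ T := ⟨ht.1.trans ht'.1.le, ht'.2⟩
    have h1 := hmono ht ht'm ht'.1.le
    simp only at h1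
    have h2 : (y t')⁻¹ < δ := by
      have h3 := inv_strictAnti₀ (inv_pos.mpr hδ0) hbig
      rwa [inv_inv] at h3
    have h4 : (1 + κ) * t' ≤ (1 + κ) * T :=
      mul_le_mul_of_nonneg_left ht'.2.le (by linarith)
    linarith
  -- the lower bound
  have hB : (1 - κ) * (T - t) ≤ (y t)⁻¹ := by
    by_contra hcon
    push Not at hcon
    have hk : 0 < 1 - κ := by linarith
    obtain ⟨s, hs⟩ : ∃ s : ℝ, s = t + (y t)⁻¹ / (1 - κ) := ⟨_, rfl⟩
    have hs1 : (1 - κ) * (s - t) = (y t)⁻¹ := by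
      rw [hs]
      field_simp
      ring
    have hst : t < s := by
      rw [hs]
      have := div_pos hzt hk
      linarith
    have hsT : s < T := by
      have h1 : (1 - κ) * (s - t) < (1 - κ) * (T - t) := by rw [hs1]; exact hcon
      have h2 := lt_of_mul_lt_mul_left h1 hk.le
      linarith
    have ht'm : (s + T) / 2 ∈ Ico t₀ T := ⟨by have := ht.1; linarith, by linarith⟩
    have h1 := hanti ht ht'm (by linarith)
    simp only at h1
    have h2 : 0 < (y ((s + T) / 2))⁻¹ := inv_pos.mpr (hy _ ht'm)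
    have h3 : (1 - κ) * s < (1 - κ) * ((s + T) / 2) :=
      mul_lt_mul_of_pos_left (by linarith) hk
    linarith
  constructor
  · have h1 := mul_le_mul_of_nonneg_right hA hyt.le
    rw [hzy] at h1
    linarith
  · have h1 := mul_le_mul_of_nonneg_right hB hyt.le
    rw [hzy] at h1
    linarith

end Pool.Agent.Lib.MPb879c5.WH
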