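import Pool.Agent.Lib.MP_b879c5_an.WH.Spec

/-!
# MP_b879c5_an, module HYZ: the lower branch, autonomous form
-/

set_option autoImplicit false

namespace Pool.Agent.Lib.MPb879c5.WH

open Set Filter MeasureTheory Topology

namespace HYZM

/-- barrier principle -/
theorem bar (Z D B B' : ℝ → ℝ) (a : ℝ) (hZ : ∀ τ, a ≤ τ → HasDerivAt Z (D τ) τ) (ha : Z a ≤ B a)
    (hB : ∀ x, HasDerivAt B (B' x) x) (bound : ∀ x, a ≤ x → Z x = B x → D x < B' x) :
    ∀ x, a ≤ x → Z x ≤ B x := by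
  intro x hx
  exact image_le_of_deriv_right_lt_deriv_boundary (a := a) (b := x)
    (fun t ht => (hZ t ht.1).continuousAt.continuousWithinAt)
    (fun t ht => (hZ t ht.1).hasDerivWithinAt) ha hB (fun t ht h => bound t ht.1 h) ⟨hx, le_refl x⟩

/-- a function which decreases with a positive speed as long as it is `> c` gets below `c` -/
theorem down (Z D : ℝ → ℝ) (a c s : ℝ) (hs : 0 < s) (hZ : ∀ τ, a ≤ τ → HasDerivAt Z (D τ) τ)
    (h : ∀ τ, a ≤ τ → c < Z τ → Z τ ≤ Z a → D τ < -s) : ∃ τ, a ≤ τ ∧ Z τ ≤ c := by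
  by_contra hcon
  have hgt : ∀ τ, a ≤ τ → c < Z τ := by
    intro τ hτ
    by_contra h1
    exact hcon ⟨τ, hτ, not_lt.1 h1⟩
  have hB : ∀ x, HasDerivAt (fun y : ℝ => Z a - s * (y - a)) ((fun _ => -s) x) x := by
    intro x
    have h1 : HasDerivAt (fun y : ℝ => s * (y - a)) (s * 1) x :=
      ((hasDerivAt_id x).sub_const a).const_mul s
    have h2 := h1.const_sub (Z a)
    simpa using h2
  have hle := bar Z D (fun y => Z a - s * (y - a)) (fun _ => -s) a hZ (by simp) hB (by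
    intro x hx hxe
    refine h x hx (hgt x hx) ?_
    rw [hxe]
    have : 0 ≤ s * (x - a) := mul_nonneg hs.le (by linarith)
    simpa using this)
  have h1 : a ≤ a + |Z a - c| / s + 1 := by
    have : 0 ≤ |Z a - c| / s := div_nonneg (abs_nonneg _) hs.le
    linarith
  have h2 := hle _ h1
  have h3 := hgt _ h1
  have h4 : s * (a + |Z a - c| / s + 1 - a) = |Z a - c| + s := by
    field_simp
    ring
  rw [h4] at h2
  have h5 := le_abs_self (Z a - c)
  linarith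

end HYZM

open HYZM in
theorem specHYZ : SpecHYZ := by
  intro Z D τ₀ ε K hε hε2 hZ hD _
  by_cases hall : ∀ τ, τ₀ ≤ τ → 1 - 2 * ε ≤ Z τ
  · exact Or.inr hall
  · left
    obtain ⟨τ₁, hτ₁, h1⟩ : ∃ τ, τ₀ ≤ τ ∧ Z τ < 1 - 2 * ε := by
      by_contra hcon
      apply hall
      intro τ hτ
      by_contra h2
      exact hcon ⟨τ, hτ, not_le.1 h2⟩
    -- below `2 ε`
    obtain ⟨τ₂, hτ₂, h2⟩ := down Z D τ₁ (2 * ε) (ε / 3) (by linarith)
      (fun τ hτ => hZ τ (le_trans hτ₁ hτ)) (by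
        intro τ hτ hlo hhi
        have h3 := (abs_le.1 (hD τ (le_trans hτ₁ hτ))).2
        have h4 : (Z τ - 2 * ε) * (Z τ - (1 - 2 * ε)) ≤ 0 :=
          mul_nonpos_of_nonneg_of_nonpos (by linarith) (by linarith)
        nlinarith)
    have hτ₂' : τ₀ ≤ τ₂ := le_trans hτ₁ hτ₂
    have hup : ∀ τ, τ₂ ≤ τ → Z τ ≤ 2 * ε := by
      intro τ hτ
      refine bar Z D (fun _ => 2 * ε) (fun _ => 0) τ₂ (fun s hs => hZ s (le_trans hτ₂' hs)) h2
        (fun x => hasDerivAt_const x (2 * ε)) ?_ τ hτ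
      intro x hx hxe
      have h3 := (abs_le.1 (hD x (le_trans hτ₂' hx))).2
      rw [hxe] at h3
      nlinarith
    -- above `- 2 ε`
    have hneg : ∀ τ, τ₂ ≤ τ → HasDerivAt (fun s => -Z s) (-D τ) τ :=
      fun τ hτ => (hZ τ (le_trans hτ₂' hτ)).neg
    obtain ⟨τ₃, hτ₃, h3⟩ := down (fun s => -Z s) (fun s => -D s) τ₂ (2 * ε) (ε / 3) (by linarith)
      hneg (by
        intro τ hτ hlo _
        have h3 := (abs_le.1 (hD τ (le_trans hτ₂' hτ))).1
        have hlo' : 2 * ε < -Z τ := hlo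
        have h4 : 0 ≤ Z τ ^ 2 := sq_nonneg _
        linarith)
    have hτ₃' : τ₀ ≤ τ₃ := le_trans hτ₂' hτ₃
    have hlow : ∀ τ, τ₃ ≤ τ → -Z τ ≤ 2 * ε := by
      intro τ hτ
      refine bar (fun s => -Z s) (fun s => -D s) (fun _ => 2 * ε) (fun _ => 0) τ₃
        (fun s hs => hneg s (le_trans hτ₃ hs)) h3 (fun x => hasDerivAt_const x (2 * ε)) ?_ τ hτ
      intro x hx hxe
      have hxe' : -Z x = 2 * ε := hxe
      have h4 := (abs_le.1 (hD x (le_trans hτ₃' hx))).1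
      have h5 : Z x = -(2 * ε) := by linarith
      rw [h5] at h4
      nlinarith
    filter_upwards [eventually_ge_atTop τ₃] with τ hτ
    rw [abs_le]
    exact ⟨by linarith [hlow τ hτ], hup τ (le_trans hτ₃ hτ)⟩

end Pool.Agent.Lib.MPb879c5.WH
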