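import Pool.Agent.Lib.MP_b879c5_an.WH.Fin
import Pool.Agent.Lib.MP_b879c5_an.WH.HPO
import Pool.Agent.Lib.MP_b879c5_an.WH.HIN
import Pool.Agent.Lib.MP_b879c5_an.WH.HPS
import Pool.Agent.Lib.MP_b879c5_an.WH.HSS
import Pool.Agent.Lib.MP_b879c5_an.WH.HYP
import Pool.Agent.Lib.MP_b879c5_an.WH.HYZ
import Pool.Agent.Lib.MP_b879c5_an.WH.HYM
import Pool.Agent.Lib.MP_b879c5_an.WH.HEX
import Pool.Agent.Lib.MP_b879c5_an.WP.All

/-!
All modules of the part on highly oscillating solutions put together (MP_b879c5_an, helper42).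
-/

set_option autoImplicit false

namespace Pool.Agent.Lib.MPb879c5.WH

open Set Filter MeasureTheory Topology
open Pool.Agent.Lib.MP_b879c5_an
open Pool.Agent.Lib.MPb879c5.WP
open scoped ContDiff

theorem hom_all (n : ℕ) (T : ℝ) (U : ℝ × ℝ → ℝ) (hn : 100 ≤ n) (hT : 0 < T) (hS : Sol T U) (hb : Blow T U)
    (hper : ∀ t ∈ Ioo 0 T, ∀ x, U (t, x + 2 * Real.pi / n) = U (t, x))
    (hnc : ∃ t ∈ Ioo 0 T, ∃ x y, U (t, x) ≠ U (t, y)) :
    ∀ᶠ t in 𝓝[<] T, ∀ x, |(T - t) * U (t, x) - 1 / 2| ≤ 20 / n :=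
  hom (specHIN specHPO) (specHPS allPRD) specHSS specHYP (specHYM specHYZ) specHEX n T U hn hT hS hb hper hnc

end Pool.Agent.Lib.MPb879c5.WH
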