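import Pool.Agent.Lib.MP_b879c5_an.WH.Spec

/-!
Blow-up of highly oscillating solutions: assembly (MP_b879c5_an, helper42).
-/

set_option autoImplicit false

namespace Pool.Agent.Lib.MPb879c5.WH

open Set Filter MeasureTheory Topology
open Pool.Agent.Lib.MP_b879c5_an
open Pool.Agent.Lib.MPb879c5.WP
open scoped ContDiff

theorem hom (hHIN : SpecHIN) (hHPS : SpecHPS) (hHSS : SpecHSS) (hHYP : SpecHYP) (hHYM : SpecHYM) (hHEX : SpecHEX)
    (n : ℕ) (T : ℝ) (U : ℝ × ℝ → ℝ) (hn : 100 ≤ n) (hT : 0 < T) (hS : Sol T U) (hb : Blow T U)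
    (hper : ∀ t ∈ Ioo 0 T, ∀ x, U (t, x + 2 * Real.pi / n) = U (t, x))
    (hnc : ∃ t ∈ Ioo 0 T, ∃ x y, U (t, x) ≠ U (t, y)) :
    ∀ᶠ t in 𝓝[<] T, ∀ x, |(T - t) * U (t, x) - 1 / 2| ≤ 20 / n := by
  have hn1 : (100 : ℝ) ≤ n := by exact_mod_cast hn
  have hn0 : (0 : ℝ) < n := by linarith
  have hpi : Real.pi < 3.15 := Real.pi_lt_d2
  have hpi0 : 0 < Real.pi := Real.pi_pos
  set q := Real.pi / n with hq
  have hq0 : 0 < q := by positivity
  have hqn : q ≤ 3.15 / n := by
    rw [hq]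
    exact div_le_div_of_nonneg_right hpi.le hn0.le
  have hq1 : q ≤ 0.0315 := by
    refine hqn.trans ?_
    rw [div_le_iff₀ hn0]
    linarith
  set κ := 2 * q + q ^ 2 with hκ
  have hκ0 : 0 < κ := by positivity
  have hκ1 : κ ≤ 0.064 := by rw [hκ]; nlinarith
  have hκ2 : κ ≤ 2.04 * q := by rw [hκ]; nlinarith
  have h1κ : 0 < 1 - κ := by linarith
  set P := 1 / (1 - κ) with hP
  have hP0 : 0 < P := by positivity
  have hPe : P * (1 - κ) = 1 := by rw [hP]; field_simp
  have hP1 : P ≤ 1.07 := by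
    rw [hP, div_le_iff₀ h1κ]
    linarith
  have hP2 : P ≤ 1 + 1.07 * κ := by nlinarith
  set ε := κ * P ^ 2 with hε
  have hε0 : 0 < ε := by positivity
  have hPP : P ^ 2 ≤ 1.1449 := by nlinarith
  have hε2 : ε ≤ 1.15 * κ := by rw [hε]; nlinarith
  have hε1 : ε ≤ 1 / 12 := by linarith
  -- the initial time
  set t₀ := T - T / 1053 with ht₀
  have ht₀T : t₀ < T := by rw [ht₀]; linarith [div_pos hT (by norm_num : (0 : ℝ) < 1053)]
  have hhalf : T / 2 ≤ t₀ := by rw [ht₀]; linarith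
  have hmem : ∀ t ∈ Ico t₀ T, t ∈ Ioo 0 T := fun t ht => ⟨by linarith [ht.1], ht.2⟩
  have hG : ∀ t ∈ Ioo 0 T, 0 < Gm U t := fun t ht => div_pos (hHPS T U hS hnc t ht) (by positivity)
  have hlow : ∀ t ∈ Ico t₀ T, (1 / 81) / (T - t) - 13 / T ≤ mI U t := fun t ht =>
    hS.mean_lower hb (hmem t ht) (hhalf.trans ht.1)
  have hA : ∀ t ∈ Ico t₀ T, 0 ≤ Am U t := by
    intro t ht
    have h1 := hlow t ht
    have hTt : 0 < T - t := by linarith [ht.2]
    have h2 : 13 / T ≤ (1 / 81) / (T - t) := by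
      rw [div_le_div_iff₀ hT hTt]
      have := ht.1
      rw [ht₀] at this
      linarith
    exact div_nonneg (by linarith) (by positivity)
  have H : ∀ t ∈ Ioo 0 T, ∃ d e R : ℝ, HasDerivAt (fun s => Am U s + Real.sqrt (Gm U s)) d t ∧
      HasDerivAt (fun s => Am U s - Real.sqrt (Gm U s)) e t ∧
      |d - (Am U t + Real.sqrt (Gm U t)) ^ 2| ≤ κ * Gm U t ∧
      |e - (Am U t - Real.sqrt (Gm U t)) ^ 2| ≤ κ * Gm U t ∧
      HasDerivAt (Gm U) (4 * Am U t * Gm U t + R) t ∧
      |R| ≤ 4 * q * Gm U t * Real.sqrt (Gm U t) := by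
    intro t ht
    obtain ⟨-, V, R, hV0, hV1, hR, hdA, hdG⟩ := hHIN n T U (by omega) hS hper t ht
    obtain ⟨d, e, h1, h2, h3, h4⟩ := hHSS (Am U) (Gm U) t V R q (hG t ht) hq0.le hV0 hV1 hR hdA hdG
    exact ⟨d, e, R, h1, h2, h3, h4, hdG, hR⟩
  choose! d e R hd1 hd2 hd3 hd4 hd5 hd6 using H
  have hs0 : ∀ t ∈ Ioo 0 T, 0 < Real.sqrt (Gm U t) := fun t ht => Real.sqrt_pos.2 (hG t ht)
  have hss : ∀ t ∈ Ioo 0 T, Real.sqrt (Gm U t) ^ 2 = Gm U t := fun t ht => Real.sq_sqrt (hG t ht).le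
  -- the upper branch
  have hup := hHYP (fun s => Am U s + Real.sqrt (Gm U s)) d t₀ T κ ht₀T hκ0.le (by linarith)
    (fun t ht => hd1 t (hmem t ht))
    (fun t ht => add_pos_of_nonneg_of_pos (hA t ht) (hs0 t (hmem t ht)))
    (fun t ht => by
      refine (hd3 t (hmem t ht)).trans (mul_le_mul_of_nonneg_left ?_ hκ0.le)
      have h1 := hA t ht
      have h2 := hs0 t (hmem t ht)
      have h3 := hss t (hmem t ht)
      show Gm U t ≤ (Am U t + Real.sqrt (Gm U t)) ^ 2
      nlinarith [mul_nonneg h1 h2.le, mul_nonneg h1 h1])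
    (fun M t₁ ht₁ => by
      have hK : 0 < 2 * Real.pi * |M| + 13 / T + 1 := by positivity
      set K := 2 * Real.pi * |M| + 13 / T + 1 with hKdef
      have hm : max t₁ t₀ < T := max_lt ht₁ ht₀T
      have hδ : 0 < min ((T - max t₁ t₀) / 2) ((1 / 81) / (2 * K)) :=
        lt_min (by linarith) (by positivity)
      set δ := min ((T - max t₁ t₀) / 2) ((1 / 81) / (2 * K)) with hδdef
      have hδ1 : δ ≤ (T - max t₁ t₀) / 2 := min_le_left _ _
      have hδ2 : δ ≤ (1 / 81) / (2 * K) := min_le_right _ _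
      have hl1 : t₁ ≤ max t₁ t₀ := le_max_left _ _
      have hl2 : t₀ ≤ max t₁ t₀ := le_max_right _ _
      have htm : T - δ ∈ Ico t₀ T := ⟨by linarith, by linarith⟩
      refine ⟨T - δ, ⟨by linarith, by linarith⟩, ?_⟩
      have h1 := hlow (T - δ) htm
      have h2 : T - (T - δ) = δ := by ring
      rw [h2] at h1
      have h3 : 2 * K ≤ (1 / 81) / δ := by
        rw [le_div_iff₀ hδ]
        have := (le_div_iff₀ (by positivity : (0 : ℝ) < 2 * K)).1 hδ2
        linarith
      have h4 : |M| < Am U (T - δ) := by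
        show |M| < mI U (T - δ) / (2 * Real.pi)
        rw [lt_div_iff₀ (by positivity)]
        linarith
      have h5 := hs0 (T - δ) (hmem _ htm)
      show M < Am U (T - δ) + Real.sqrt (Gm U (T - δ))
      linarith [le_abs_self M])
  have hYp : ∀ t ∈ Ico t₀ T, 1 - κ ≤ (T - t) * (Am U t + Real.sqrt (Gm U t)) ∧
      (T - t) * (Am U t + Real.sqrt (Gm U t)) ≤ P := by
    intro t ht
    obtain ⟨h1, h2⟩ := hup t ht
    refine ⟨?_, ?_⟩
    · by_contra hcon
      push Not at hcon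
      nlinarith
    · rw [hP, le_div_iff₀ h1κ]
      linarith
  have hYs : ∀ t ∈ Ico t₀ T, (T - t) * Real.sqrt (Gm U t) ≤ P := by
    intro t ht
    have hTt : 0 < T - t := by linarith [ht.2]
    have h1 := (hYp t ht).2
    have h2 := mul_nonneg hTt.le (hA t ht)
    linarith
  have hYG : ∀ t ∈ Ico t₀ T, (T - t) ^ 2 * Gm U t ≤ P ^ 2 := by
    intro t ht
    have hTt : 0 < T - t := by linarith [ht.2]
    have h1 := hYs t ht
    have h2 := hs0 t (hmem t ht)
    have h3 : (T - t) ^ 2 * Gm U t = ((T - t) * Real.sqrt (Gm U t)) ^ 2 := by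
      rw [mul_pow, hss t (hmem t ht)]
    rw [h3]
    exact pow_le_pow_left₀ (by positivity) h1 2
  -- the lower branch
  have hdn := hHYM (fun s => Am U s - Real.sqrt (Gm U s)) e t₀ T ε 2 ht₀T hε0 hε1
    (fun t ht => hd2 t (hmem t ht))
    (fun t ht => by
      have h1 := hd4 t (hmem t ht)
      have h2 := hYG t ht
      have hTt : 0 ≤ (T - t) ^ 2 := sq_nonneg _
      calc |e t - (Am U t - Real.sqrt (Gm U t)) ^ 2| * (T - t) ^ 2 ≤ κ * Gm U t * (T - t) ^ 2 :=
            mul_le_mul_of_nonneg_right h1 hTt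
        _ = κ * ((T - t) ^ 2 * Gm U t) := by ring
        _ ≤ κ * P ^ 2 := mul_le_mul_of_nonneg_left h2 hκ0.le)
    (fun t ht => by
      have hTt : 0 < T - t := by linarith [ht.2]
      have h1 := (hYp t ht).2
      have h2 := mul_nonneg hTt.le (hA t ht)
      have h3 := mul_pos hTt (hs0 t (hmem t ht))
      show |(T - t) * (Am U t - Real.sqrt (Gm U t))| ≤ 2
      rw [abs_le]
      constructor <;> nlinarith)
  rcases hdn with hdn | hdn
  · filter_upwards [hdn, Ioo_mem_nhdsLT ht₀T] with t ht1 ht2 x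
    have htI : t ∈ Ico t₀ T := ⟨ht2.1.le, ht2.2⟩
    have hTt : 0 < T - t := by linarith [ht2.2]
    obtain ⟨h1, h2⟩ := hYp t htI
    have h3 : |(T - t) * (Am U t - Real.sqrt (Gm U t))| ≤ 2 * ε := ht1
    obtain ⟨h4, h5⟩ := abs_le.1 h3
    have hosc := (hHIN n T U (by omega) hS hper t (hmem t htI)).1 x
    have h6 : |(T - t) * (U (t, x) - Am U t)| ≤ q * ((T - t) * Real.sqrt (Gm U t)) := by
      rw [abs_mul, abs_of_pos hTt]
      calc (T - t) * |U (t, x) - Am U t| ≤ (T - t) * (q * Real.sqrt (Gm U t)) :=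
            mul_le_mul_of_nonneg_left hosc hTt.le
        _ = q * ((T - t) * Real.sqrt (Gm U t)) := by ring
    have h7 : (T - t) * Real.sqrt (Gm U t) ≤ 0.65 := by nlinarith
    have h8 : q * ((T - t) * Real.sqrt (Gm U t)) ≤ 0.65 * q := by nlinarith
    obtain ⟨h9, h10⟩ := abs_le.1 (h6.trans h8)
    have h11 : 5 * q ≤ 20 / n := by
      have : 5 * q ≤ 5 * (3.15 / n) := by linarith
      refine this.trans ?_
      rw [← mul_div_assoc]
      exact div_le_div_of_nonneg_right (by norm_num) hn0.le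
    refine le_trans ?_ h11
    rw [abs_le]
    constructor <;> nlinarith
  · exfalso
    obtain ⟨t, ht, h1⟩ := hHEX (Gm U) (fun t => 4 * Am U t * Gm U t + R t) t₀ T 4 ht₀T
      (fun t ht => hd5 t (hmem t ht)) (fun t ht => hG t (hmem t ht))
      (fun t ht => by
        have hTt : 0 < T - t := by linarith [ht.2]
        have h1 := hdn t ht
        have h1' : 1 - 2 * ε ≤ (T - t) * (Am U t - Real.sqrt (Gm U t)) := h1
        have h2 := (hYp t ht).2
        have h3 := hs0 t (hmem t ht)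
        have h4 := hG t (hmem t ht)
        have h5 : 5 / 6 ≤ (T - t) * Am U t := by nlinarith [mul_pos hTt h3]
        have h6 : (T - t) * Real.sqrt (Gm U t) ≤ 1 / 2 := by nlinarith
        have h7 := hd6 t (hmem t ht)
        have h8 : -((T - t) * (4 * q * Gm U t * Real.sqrt (Gm U t))) ≤ (T - t) * R t := by
          have := mul_le_mul_of_nonneg_left (abs_le.1 h7).1 hTt.le
          linarith
        have h9 : (T - t) * (4 * q * Gm U t * Real.sqrt (Gm U t))
            = 4 * q * Gm U t * ((T - t) * Real.sqrt (Gm U t)) := by ring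
        have h10 : 4 * q * Gm U t * ((T - t) * Real.sqrt (Gm U t)) ≤ 4 * q * Gm U t * (1 / 2) :=
          mul_le_mul_of_nonneg_left h6 (by positivity)
        have h11 : 4 * q * Gm U t * (1 / 2) ≤ 0.07 * Gm U t := by nlinarith
        have h12 : (T - t) * (4 * Am U t * Gm U t) = 4 * ((T - t) * Am U t) * Gm U t := by ring
        have h13 : 4 * (5 / 6) * Gm U t ≤ 4 * ((T - t) * Am U t) * Gm U t := by nlinarith
        show 3 * Gm U t ≤ (T - t) * (4 * Am U t * Gm U t + R t)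
        rw [mul_add, h12]
        linarith)
    have h2 := hYG t ht
    linarith

end Pool.Agent.Lib.MPb879c5.WH
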