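import Pool.Agent.Lib.MP_b879c5_an.WP.SpecG

/-!
# Blow-up of highly oscillating solutions (MP_b879c5_an): specification (captain helper42)

AIM. Let `n ≥ 100` and let `U` be a nonconstant solution of period `2π/n`, unbounded near `T`. Then `|(T-t) U(t,x) - 1/2| ≤ 20/n` for all `t` near `T` and all `x`:
a second type of blow-up, at every point, with the constant `1/2`.
IDEA. `A` = mean of `U`, `G` = mean of `U_x²`: `A' = G + A² + O(G/n²)`, `G' = 4AG + O(G^(3/2)/n)`, so `y± = A ± √G` satisfy `y±' = y±² + O(G/n)`: two Riccati equations.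

Conventions: module `XXX` is the file `Pool/Agent/Lib/MP_b879c5_an/WH/XXX.lean`, imports only `Pool.Agent.Lib.MP_b879c5_an.WH.Spec` and proves
`theorem specXXX (hYYY : SpecYYY) .. : SpecXXX` (the modules named after USES, in this order; `WP.SpecPRD` is that of `WP`) in the namespace `Pool.Agent.Lib.MPb879c5.WH`, own lemmas
in a namespace `XXXM`. The library of `BlowUp.lean` (`Sol.hasDerivAt_m`, `Sol.hasDerivAt_I`, `Sm.hasDerivAt_x`, `Sm.continuous_x`, ..) may be used.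
-/

set_option autoImplicit false

namespace Pool.Agent.Lib.MPb879c5.WH

open Set Filter MeasureTheory Topology
open Pool.Agent.Lib.MP_b879c5_an
open Pool.Agent.Lib.MPb879c5.WP
open scoped ContDiff

noncomputable section

/-- The mean of `u`. -/
def Am (U : ℝ × ℝ → ℝ) (t : ℝ) : ℝ := mI U t / (2 * Real.pi)

/-- The mean of `u_x²`. -/
def Gm (U : ℝ × ℝ → ℝ) (t : ℝ) : ℝ := II U t / (2 * Real.pi)

/-- **HPO** (120 lines, no deps). Oscillation of a function of period `ℓ = 2π/n`.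
PROOF. The mean of `f` over `[x, x + ℓ]` is its mean `A` over `[0, 2π]`, so `f y = A` for some `y ∈ [x, x + ℓ]`. `A - f x = ∫_x^y f'` and `f x - A = f (x + ℓ) - f y = ∫_y^(x+ℓ) f'`, so
`2 |f x - A| ≤ ∫_x^(x+ℓ) |f'| ≤ √(ℓ ∫_x^(x+ℓ) f'²) = √(ℓ (1/n) ∫_0^(2π) f'²) = (2π/n) √(∫ f'²/(2π))`. -/
def SpecHPO : Prop :=
  ∀ (n : ℕ) (f : ℝ → ℝ), 1 ≤ n → SP f → (∀ x, f (x + 2 * Real.pi / n) = f x) →
    ∀ x, |f x - (∫ y in (0)..(2 * Real.pi), f y) / (2 * Real.pi)|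
      ≤ Real.pi / n * Real.sqrt ((∫ y in (0)..(2 * Real.pi), deriv f y ^ 2) / (2 * Real.pi))

/-- **HIN** (140 lines), USES HPO. The equations for `A` and `G`.
PROOF. `V = (1/2π) ∫ (U - A)²`, `R = (4/2π) ∫ (U - A) U_x²`; `Sol.hasDerivAt_m`: `A' = (II + JI)/(2π) = G + A² + V`; `Sol.hasDerivAt_I`: `G' = (4/2π) ∫ U U_x² = 4AG + R`; HPO. -/
def SpecHIN : Prop :=
  ∀ (n : ℕ) (T : ℝ) (U : ℝ × ℝ → ℝ), 1 ≤ n → Sol T U → (∀ t ∈ Ioo 0 T, ∀ x, U (t, x + 2 * Real.pi / n) = U (t, x)) →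
    ∀ t ∈ Ioo 0 T, (∀ x, |U (t, x) - Am U t| ≤ Real.pi / n * Real.sqrt (Gm U t)) ∧
      ∃ V R : ℝ, 0 ≤ V ∧ V ≤ (Real.pi / n) ^ 2 * Gm U t ∧ |R| ≤ 4 * (Real.pi / n) * Gm U t * Real.sqrt (Gm U t) ∧
        HasDerivAt (Am U) (Gm U t + Am U t ^ 2 + V) t ∧ HasDerivAt (Gm U) (4 * Am U t * Gm U t + R) t

/-- **HPS** (80 lines), USES PRD. `∫ u_x² > 0` for nonconstant solutions.
PROOF. If `II U t₀ = 0` then `Dx U (t₀,·) = 0`, `U(t₀,·)` is constant, so `U(t₀, x + h) = U(t₀, x)` for all `h, x`; by PRD `U(t, x + h) = U(t, x)` for all `t, h, x`. -/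
def SpecHPS : Prop :=
  ∀ (T : ℝ) (U : ℝ × ℝ → ℝ), Sol T U → (∃ t ∈ Ioo 0 T, ∃ x y, U (t, x) ≠ U (t, y)) → ∀ t ∈ Ioo 0 T, 0 < II U t

/-- **HSS** (90 lines, no deps). The Riccati equations, at one time `t`.
PROOF. `(√G)' = G'/(2√G) = 2A√G + r`, `|r| = |R|/(2√G) ≤ 2qG`; `d = y₊² + V + r`, `e = y₋² + V - r`. -/
def SpecHSS : Prop :=
  ∀ (A G : ℝ → ℝ) (t V R q : ℝ), 0 < G t → 0 ≤ q → 0 ≤ V → V ≤ q ^ 2 * G t → |R| ≤ 4 * q * G t * Real.sqrt (G t) →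
    HasDerivAt A (G t + A t ^ 2 + V) t → HasDerivAt G (4 * A t * G t + R) t →
    ∃ d e : ℝ, HasDerivAt (fun s => A s + Real.sqrt (G s)) d t ∧ HasDerivAt (fun s => A s - Real.sqrt (G s)) e t ∧
      |d - (A t + Real.sqrt (G t)) ^ 2| ≤ (2 * q + q ^ 2) * G t ∧ |e - (A t - Real.sqrt (G t)) ^ 2| ≤ (2 * q + q ^ 2) * G t

/-- **HYP** (130 lines, no deps). The upper branch.
PROOF. `z = 1/y > 0`, `z' = -d/y² ∈ [-(1+κ), -(1-κ)]`. For `t < t' < T`: `z(t) ≤ z(t') + (1+κ)(t' - t)` and `z(t) ≥ (1-κ)(t' - t)`. Let `t' → T`: the second gives `z(t) ≥ (1-κ)(T - t)`;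
in the first take `t'` with `y(t') > M`, `M → ∞`: `z(t) ≤ (1+κ)(T - t)`. -/
def SpecHYP : Prop :=
  ∀ (y d : ℝ → ℝ) (t₀ T κ : ℝ), t₀ < T → 0 ≤ κ → κ < 1 → (∀ t ∈ Ico t₀ T, HasDerivAt y (d t) t) → (∀ t ∈ Ico t₀ T, 0 < y t) →
    (∀ t ∈ Ico t₀ T, |d t - y t ^ 2| ≤ κ * y t ^ 2) → (∀ M, ∀ t₁ < T, ∃ t ∈ Ioo t₁ T, M < y t) →
    ∀ t ∈ Ico t₀ T, 1 ≤ (1 + κ) * ((T - t) * y t) ∧ (1 - κ) * ((T - t) * y t) ≤ 1

/-- **HYZ** (180 lines, no deps). The lower branch, autonomous form.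
PROOF. Let `Z(τ₁) < 1 - 2ε`. (i) For `2ε ≤ Z ≤ 1 - 2ε`: `D ≤ Z² - Z + ε ≤ -2ε(1-2ε) + ε = -ε(1-4ε) ≤ -2ε/3`. So `Z` cannot reach `1 - 2ε` again, it is `≤ 2ε` after a time `≤ 3(K+1)/ε`, and stays
`≤ 2ε` (a first exit time would have `D ≥ 0` at `Z = 2ε`). (ii) For `Z ≤ -2ε`: `D ≥ Z² - Z - ε ≥ 2ε - ε = ε`. So `Z ≥ -2ε` after a time `≤ (K+1)/ε`, and stays `≥ -2ε`. -/
def SpecHYZ : Prop :=
  ∀ (Z D : ℝ → ℝ) (τ₀ ε K : ℝ), 0 < ε → ε ≤ 1 / 12 → (∀ τ, τ₀ ≤ τ → HasDerivAt Z (D τ) τ) →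
    (∀ τ, τ₀ ≤ τ → |D τ - (Z τ ^ 2 - Z τ)| ≤ ε) → (∀ τ, τ₀ ≤ τ → |Z τ| ≤ K) →
    (∀ᶠ τ in atTop, |Z τ| ≤ 2 * ε) ∨ ∀ τ, τ₀ ≤ τ → 1 - 2 * ε ≤ Z τ

/-- **HYM** (110 lines), USES HYZ. The lower branch.
PROOF. `Z(τ) = e^(-τ) y(T - e^(-τ))`, `D(τ) = e^(-2τ) d(T - e^(-τ)) - Z(τ)`, `τ₀ = -log(T - t₀)`; `D - (Z² - Z) = e^(-2τ) (d - y²)`. Back with `τ = -log(T - t) → ∞` as `t → T`. -/
def SpecHYM : Prop :=
  ∀ (y d : ℝ → ℝ) (t₀ T ε K : ℝ), t₀ < T → 0 < ε → ε ≤ 1 / 12 → (∀ t ∈ Ico t₀ T, HasDerivAt y (d t) t) →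
    (∀ t ∈ Ico t₀ T, |d t - y t ^ 2| * (T - t) ^ 2 ≤ ε) → (∀ t ∈ Ico t₀ T, |(T - t) * y t| ≤ K) →
    (∀ᶠ t in 𝓝[<] T, |(T - t) * y t| ≤ 2 * ε) ∨ ∀ t ∈ Ico t₀ T, 1 - 2 * ε ≤ (T - t) * y t

/-- **HEX** (70 lines, no deps). Growth.
PROOF. `(T-t)³ G(t)` has the derivative `(T-t)² ((T-t) g - 3G) ≥ 0`, so `(T-t)² G(t) ≥ (T-t₀)³ G(t₀)/(T-t) → ∞`. -/
def SpecHEX : Prop :=
  ∀ (G g : ℝ → ℝ) (t₀ T K : ℝ), t₀ < T → (∀ t ∈ Ico t₀ T, HasDerivAt G (g t) t) → (∀ t ∈ Ico t₀ T, 0 < G t) →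
    (∀ t ∈ Ico t₀ T, 3 * G t ≤ (T - t) * g t) → ∃ t ∈ Ico t₀ T, K < (T - t) ^ 2 * G t

end

end Pool.Agent.Lib.MPb879c5.WH
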